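import Pool.Agent.Helper86.FS.StartGoals
import Pool.Agent.Helper67.AK.UR
import Pool.Agent.Helper60.AK.LZ

/-! Project FS (MP_75608d_al), part START, packet WI. -/

namespace Pool.Agent.Helper15.FS

open Equiv Pool.Agent.Helper3.AK Pool.Agent.Helper86.FS

theorem wi : WIStmt := by
  intro n k R z ε J hk hn hR hε hε1 hgap hJ
  refine Pool.Agent.Helper67.AK.ur Pool.Agent.Helper60.AK.LZ.lz n k R J z ε hk hR hε hε1 hgap ?_
  have hn0 : (0 : ℝ) < n := by
    have : 0 < n := by omega
    exact_mod_cast this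
  have h1 : (R : ℝ) * Real.log n ≤ ε / 2 * J := by
    have h2 : ε / 2 * (2 * R / ε * Real.log n) ≤ ε / 2 * J :=
      mul_le_mul_of_nonneg_left hJ (by positivity)
    have h3 : ε / 2 * (2 * R / ε * Real.log n) = (R : ℝ) * Real.log n := by
      field_simp
    linarith
  have h4 : (1 - ε / 2) ^ J ≤ Real.exp (-(ε / 2 * J)) := by
    have h5 : 1 - ε / 2 ≤ Real.exp (-(ε / 2)) := by
      have := Real.add_one_le_exp (-(ε / 2))
      linarith
    calc (1 - ε / 2) ^ J ≤ (Real.exp (-(ε / 2))) ^ J :=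
          pow_le_pow_left₀ (by linarith) h5 J
      _ = Real.exp (-(ε / 2 * J)) := by
          rw [← Real.exp_nat_mul]
          congr 1
          ring
  have h6 : Real.exp (-(ε / 2 * J)) ≤ Real.exp (-((R : ℝ) * Real.log n)) :=
    Real.exp_le_exp.2 (by linarith)
  have h7 : Real.exp (-((R : ℝ) * Real.log n)) = 1 / (n : ℝ) ^ R := by
    rw [Real.exp_neg, Real.exp_nat_mul, Real.exp_log hn0, one_div]
  have h8 : 1 / (n : ℝ) ^ R ≤ 1 / (n.descFactorial R : ℝ) := by
    have h9 : 0 < n.descFactorial R := Nat.descFactorial_pos.2 hR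
    have h10 : n.descFactorial R ≤ n ^ R := Nat.descFactorial_le_pow n R
    apply one_div_le_one_div_of_le
    · exact_mod_cast h9
    · exact_mod_cast h10
  linarith [h4, h6, h7, h8]

end Pool.Agent.Helper15.FS
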