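import Mathlib

/-! Project FS (MP_75608d_al), final step with intervals (helper34, 23228), part (5): choice of the
jump edges, greedy version, for a given (canonical) linear key `f`. -/

set_option linter.unusedVariables false

namespace Pool.Agent.Helper15.FS

open Finset

variable {E Q : Type*} [DecidableEq E] [DecidableEq Q]

/-- state of the greedy choice -/
structure Gr {α : Type*} [LinearOrder α] (own hit : E → Finset Q) (T : E → ℕ) (f : E → α) (c : ℝ)
    (s W : Finset E) (ξ : E → Q) : Prop where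
  sub : W ⊆ s
  mem : ∀ e ∈ W, ξ e ∈ own e
  no : ∀ e' ∈ W, ∀ e ∈ W, f e' < f e → ξ e ∉ hit e'
  fail : ∀ e ∈ s \ W, own e ⊆ W.biUnion hit
  num : ∀ M : ℝ, (∀ e ∈ s, (T e : ℝ) ≤ M) →
    M * (c * ((s \ W).card : ℝ) - W.card) ≤ c * ∑ e ∈ s \ W, (T e : ℝ) - ∑ e ∈ W, (T e : ℝ)

theorem gr_nonpos {own hit : E → Finset Q} {T : E → ℕ} {c : ℝ} {s W : Finset E}
    (hdis : ∀ e ∈ s, ∀ e' ∈ s, e ≠ e' → Disjoint (own e) (own e'))
    (hown : ∀ e ∈ s, c * T e ≤ (own e).card) (hhit : ∀ e ∈ s, (hit e).card ≤ T e)
    (hW : W ⊆ s) (hfail : ∀ e ∈ s \ W, own e ⊆ W.biUnion hit) :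
    c * ∑ e ∈ s \ W, (T e : ℝ) - ∑ e ∈ W, (T e : ℝ) ≤ 0 := by
  have h1 : c * ∑ e ∈ s \ W, (T e : ℝ) ≤ ∑ e ∈ s \ W, ((own e).card : ℝ) := by
    rw [mul_sum]
    exact sum_le_sum fun e he => hown e (mem_sdiff.1 he).1
  have h2 : ∑ e ∈ s \ W, ((own e).card : ℝ) = (((s \ W).biUnion own).card : ℝ) := by
    rw [card_biUnion]
    · push_cast
      rfl
    · intro e he e' he' hne
      exact hdis e (mem_sdiff.1 he).1 e' (mem_sdiff.1 he').1 hne
  have h3 : (((s \ W).biUnion own).card : ℝ) ≤ ((W.biUnion hit).card : ℝ) := by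
    have : (s \ W).biUnion own ⊆ W.biUnion hit := biUnion_subset.2 hfail
    exact_mod_cast card_le_card this
  have h4 : ((W.biUnion hit).card : ℝ) ≤ ∑ e ∈ W, ((hit e).card : ℝ) := by
    exact_mod_cast (card_biUnion_le : (W.biUnion hit).card ≤ ∑ e ∈ W, (hit e).card)
  have h5 : ∑ e ∈ W, ((hit e).card : ℝ) ≤ ∑ e ∈ W, (T e : ℝ) :=
    sum_le_sum fun e he => by exact_mod_cast hhit e (hW he)
  linarith

theorem gr_exists {α : Type*} [LinearOrder α] [Nonempty Q] {own hit : E → Finset Q} {T : E → ℕ}
    {f : E → α} {c : ℝ} (hc : 0 < c) (s : Finset E) (hT : ∀ e ∈ s, 1 ≤ T e)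
    (hf : ∀ e ∈ s, ∀ e' ∈ s, f e' ≤ f e → T e' ≤ T e) (hinj : Set.InjOn f s)
    (hdis : ∀ e ∈ s, ∀ e' ∈ s, e ≠ e' → Disjoint (own e) (own e'))
    (hown : ∀ e ∈ s, c * T e ≤ (own e).card) (hhit : ∀ e ∈ s, (hit e).card ≤ T e) :
    ∃ (W : Finset E) (ξ : E → Q), Gr own hit T f c s W ξ := by
  induction s using Finset.induction_on_max_value f with
  | empty =>
    refine ⟨∅, fun _ => Classical.arbitrary Q, ?_⟩
    constructor <;> simp
  | insert a s ha hmax ih =>
    obtain ⟨W, ξ, hG⟩ := ih (fun e he => hT e (mem_insert_of_mem he))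
      (fun e he e' he' => hf e (mem_insert_of_mem he) e' (mem_insert_of_mem he'))
      (hinj.mono (by simp))
      (fun e he e' he' => hdis e (mem_insert_of_mem he) e' (mem_insert_of_mem he'))
      (fun e he => hown e (mem_insert_of_mem he)) (fun e he => hhit e (mem_insert_of_mem he))
    have hTa : (0 : ℝ) < T a := by exact_mod_cast hT a (mem_insert_self _ _)
    have haW : a ∉ W := fun h => ha (hG.sub h)
    have hnumA := hG.num (T a) (fun e he => by
      exact_mod_cast hf a (mem_insert_self _ _) e (mem_insert_of_mem he) (hmax e he))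
    have hlt : ∀ e ∈ s, f e < f a := by
      intro e he
      refine lt_of_le_of_ne (hmax e he) fun h => ha ?_
      have := hinj (by simp [he]) (by simp) h
      exact this ▸ he
    by_cases hsub : own a ⊆ W.biUnion hit
    · -- failure
      have hsd : insert a s \ W = insert a (s \ W) := insert_sdiff_of_notMem _ haW
      have hfail : ∀ e ∈ insert a s \ W, own e ⊆ W.biUnion hit := by
        intro e he
        rw [hsd, mem_insert] at he
        rcases he with rfl | he
        · exact hsub
        · exact hG.fail e he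
      have hWs : W ⊆ insert a s := hG.sub.trans (subset_insert _ _)
      have hnp := gr_nonpos hdis hown hhit hWs hfail
      refine ⟨W, ξ, hWs, hG.mem, hG.no, hfail, ?_⟩
      intro M hM
      have hMa := hM a (mem_insert_self _ _)
      have hcard : ((insert a s \ W).card : ℝ) = (s \ W).card + 1 := by
        rw [hsd, card_insert_of_notMem (fun h => ha (mem_sdiff.1 h).1)]
        push_cast
        rfl
      have hsum : ∑ e ∈ insert a s \ W, (T e : ℝ) = T a + ∑ e ∈ s \ W, (T e : ℝ) := by
        rw [hsd, sum_insert (fun h => ha (mem_sdiff.1 h).1)]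
      rw [hsum] at hnp
      rw [hcard, hsum]
      have h1 : (T a : ℝ) * (c * ((s \ W).card + 1) - W.card) ≤
          c * (T a + ∑ e ∈ s \ W, (T e : ℝ)) - ∑ e ∈ W, (T e : ℝ) := by
        nlinarith
      have h2 : c * (((s \ W).card : ℝ) + 1) - W.card ≤ 0 := by
        by_contra h
        push Not at h
        have := mul_pos hTa h
        linarith
      nlinarith
    · -- success
      obtain ⟨p, hp, hp2⟩ := not_subset.1 hsub
      have hsd : insert a s \ insert a W = s \ W := by
        ext e
        simp only [mem_sdiff, mem_insert, not_or]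
        constructor
        · rintro ⟨h1 | h1, h2, h3⟩
          · exact absurd h1 h2
          · exact ⟨h1, h3⟩
        · rintro ⟨h1, h2⟩
          exact ⟨Or.inr h1, fun h => ha (h ▸ h1), h2⟩
      have hne : ∀ e ∈ W, e ≠ a := fun e he h => haW (h ▸ he)
      have hfail : ∀ e ∈ insert a s \ insert a W, own e ⊆ (insert a W).biUnion hit := by
        intro e he
        rw [hsd] at he
        exact (hG.fail e he).trans (biUnion_subset_biUnion_of_subset_left _ (subset_insert _ _))
      have hWs : insert a W ⊆ insert a s := insert_subset_insert _ hG.sub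
      have hnp := gr_nonpos hdis hown hhit hWs hfail
      refine ⟨insert a W, fun e => if e = a then p else ξ e, hWs, ?_, ?_, hfail, ?_⟩
      · intro e he
        rcases mem_insert.1 he with h1 | h1
        · subst h1
          simpa using hp
        · simp only [if_neg (hne e h1)]
          exact hG.mem e h1
      · intro e' he' e he h
        rcases mem_insert.1 he with h1 | h1
        · rcases mem_insert.1 he' with h2 | h2
          · simp [h1, h2] at h
          · simp only [if_pos h1]
            intro h3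
            exact hp2 (mem_biUnion.2 ⟨e', h2, h3⟩)
        · rcases mem_insert.1 he' with h2 | h2
          · rw [h2] at h
            exact absurd h (not_lt.2 (hlt e (hG.sub h1)).le)
          · simp only [if_neg (hne e h1)]
            exact hG.no e' h2 e h1 h
      · intro M hM
        have hMa := hM a (mem_insert_self _ _)
        have hcard : ((insert a W).card : ℝ) = W.card + 1 := by
          rw [card_insert_of_notMem haW]
          push_cast
          rfl
        have hsum : ∑ e ∈ insert a W, (T e : ℝ) = T a + ∑ e ∈ W, (T e : ℝ) := by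
          rw [sum_insert haW]
        rw [hcard, hsum, hsd]
        rw [hsd, hsum] at hnp
        have h1 : (T a : ℝ) * (c * (s \ W).card - (W.card + 1)) ≤
            c * ∑ e ∈ s \ W, (T e : ℝ) - (T a + ∑ e ∈ W, (T e : ℝ)) := by
          nlinarith
        have h2 : c * ((s \ W).card : ℝ) - (W.card + 1) ≤ 0 := by
          by_contra h
          push Not at h
          have := mul_pos hTa h
          linarith
        nlinarith

/-- **CHOICE** (part (5) of helper34's final step) for a given injective key `f`, `T` monotone in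
`f`.  `own e` are pairwise disjoint sets with `c T e ≤ #(own e)`, `hit e` sets with
`#(hit e) ≤ T e`.  Then there are a subset `W` with `c #s ≤ (1 + c) #W` and elements `ξ e ∈ own e`
such that `ξ e` is not hit by the elements of `W` with smaller key. -/
theorem choice' {α : Type*} [LinearOrder α] [Nonempty Q] {own hit : E → Finset Q} {T : E → ℕ}
    {f : E → α} {c : ℝ} (hc : 0 < c) (s : Finset E) (hT : ∀ e ∈ s, 1 ≤ T e)
    (hf : ∀ e ∈ s, ∀ e' ∈ s, f e' ≤ f e → T e' ≤ T e) (hinj : Set.InjOn f s)
    (hdis : ∀ e ∈ s, ∀ e' ∈ s, e ≠ e' → Disjoint (own e) (own e'))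
    (hown : ∀ e ∈ s, c * T e ≤ (own e).card) (hhit : ∀ e ∈ s, (hit e).card ≤ T e) :
    ∃ (W : Finset E) (ξ : E → Q), W ⊆ s ∧ c * s.card ≤ (1 + c) * W.card ∧
      (∀ e ∈ W, ξ e ∈ own e) ∧ (∀ e' ∈ W, ∀ e ∈ W, f e' < f e → ξ e ∉ hit e') := by
  obtain ⟨W, ξ, hG⟩ := gr_exists hc s hT hf hinj hdis hown hhit
  refine ⟨W, ξ, hG.sub, ?_, hG.mem, hG.no⟩
  obtain ⟨M, hM1, hM⟩ : ∃ M : ℝ, 0 < M ∧ ∀ e ∈ s, (T e : ℝ) ≤ M := by
    refine ⟨∑ e ∈ s, (T e : ℝ) + 1, ?_, fun e he => ?_⟩
    · have : (0 : ℝ) ≤ ∑ e ∈ s, (T e : ℝ) := sum_nonneg fun e _ => Nat.cast_nonneg _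
      linarith
    · have := single_le_sum (f := fun e => (T e : ℝ)) (fun e _ => Nat.cast_nonneg _) he
      linarith
  have hnp := gr_nonpos hdis hown hhit hG.sub hG.fail
  have h1 := hG.num M hM
  have h2 : c * ((s \ W).card : ℝ) - W.card ≤ 0 := by
    by_contra h
    push Not at h
    have := mul_pos hM1 h
    linarith
  have h3 : ((s \ W).card : ℝ) = s.card - W.card := by
    rw [card_sdiff_of_subset hG.sub, Nat.cast_sub (card_le_card hG.sub)]
  rw [h3] at h2
  linarith

end Pool.Agent.Helper15.FS
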