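import Pool.Agent.Helper15.FS.CloseB

/-!
# Closing of many tokens (LEMMA CLOSE)

`ν k` (`k ≤ M`) are laws of words with small probability to map a set `A` of `p` points into a set `B`
of at most `8 p M` points; `y` is a uniform permutation, independent of the words. Then the closed word
`w M * y^± * ... * y^± * w 0` (any fixed pattern of signs, `M` letters) fixes a given set `X` of `8 p`
points with probability at most `M 2^(8p) / (n - 8 p M)^p + 2^M (2^(8p) q)^(M/3)`.
-/

set_option autoImplicit false
set_option linter.unusedSectionVars false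

namespace Pool.Agent.Helper15.FS

open Finset

variable {α : Type*} [Fintype α] [DecidableEq α]

theorem src_inj (w : ℕ → Equiv.Perm α) (g : ℕ → Bool) (y : Equiv.Perm α) (j : ℕ) :
    Function.Injective (src w g y j) := by
  intro z z' h
  unfold src at h
  cases hg : g j
  · rw [hg] at h
    simp only [Bool.false_eq_true, if_false] at h
    exact (T w g y j).injective (y⁻¹.injective h)
  · rw [hg] at h
    simp only [if_true] at h
    exact (T w g y j).injective h

/-- `T` only depends on the words up to `j` -/
theorem T_loc (w w' : ℕ → Equiv.Perm α) (g : ℕ → Bool) (y : Equiv.Perm α) :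
    ∀ j, (∀ l ≤ j, w l = w' l) → T w g y j = T w' g y j := by
  intro j
  induction j with
  | zero => intro h; exact h 0 le_rfl
  | succ j ih =>
    intro h
    show w (j + 1) * lt y (g j) * T w g y j = w' (j + 1) * lt y (g j) * T w' g y j
    rw [ih fun l hl => h l (by omega), h (j + 1) le_rfl]

theorem src_loc (w w' : ℕ → Equiv.Perm α) (g : ℕ → Bool) (y : Equiv.Perm α) (j : ℕ)
    (h : ∀ l ≤ j, w l = w' l) (z : α) : src w g y j z = src w' g y j z := by
  unfold src
  rw [T_loc w w' g y j h]

section count

variable (w : ℕ → Equiv.Perm α) (g : ℕ → Bool) (y : Equiv.Perm α) (X : Finset α)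

/-- the tokens whose edge at the letter `j` was used before -/
def old (j : ℕ) : Finset α :=
  X.filter fun z => ∃ k ∈ range j, ∃ z' ∈ X, src w g y k z' = src w g y j z

/-- the tokens whose edge at the letter `j` is used by no other letter -/
def uniq (M j : ℕ) : Finset α :=
  X.filter fun z => ∀ k ∈ range M, ∀ z' ∈ X, src w g y k z' = src w g y j z → k = j

theorem count (M : ℕ) : ∑ j ∈ range M, (X.card - (uniq w g y X M j).card) ≤
    2 * ∑ j ∈ range M, (old w g y X j).card := by
  classical
  have h0 : ∀ j, X.card - (uniq w g y X M j).card = (X \ uniq w g y X M j).card := by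
    intro j
    rw [card_sdiff_of_subset]
    exact filter_subset _ _
  have h1 : ∑ j ∈ range M, (X.card - (uniq w g y X M j).card) =
      ((range M).sigma fun j => X \ uniq w g y X M j).card := by
    rw [card_sigma]
    exact sum_congr rfl fun j _ => h0 j
  have h2 : ∑ j ∈ range M, (old w g y X j).card =
      ((range M).sigma fun j => old w g y X j).card := by
    rw [card_sigma]
  rw [h1, h2, two_mul]
  have h3 : ((range M).sigma fun j => X \ uniq w g y X M j) ⊆
      ((range M).sigma fun j => old w g y X j) ∪
        ((range M).sigma fun j => (X \ uniq w g y X M j) \ old w g y X j) := by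
    rintro ⟨j, z⟩ hz
    rw [mem_sigma] at hz
    rw [mem_union, mem_sigma, mem_sigma]
    by_cases ho : z ∈ old w g y X j
    · exact Or.inl ⟨hz.1, ho⟩
    · exact Or.inr ⟨hz.1, mem_sdiff.2 ⟨hz.2, ho⟩⟩
  refine (card_le_card h3).trans ((card_union_le _ _).trans ?_)
  apply add_le_add le_rfl
  have hex : ∀ q ∈ (range M).sigma fun j => (X \ uniq w g y X M j) \ old w g y X j,
      ∃ r : (_ : ℕ) × α, r ∈ ((range M).sigma fun j => old w g y X j) ∧
        src w g y r.1 r.2 = src w g y q.1 q.2 := by
    rintro ⟨j, z⟩ hq
    rw [mem_sigma, mem_sdiff, mem_sdiff] at hq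
    obtain ⟨hj, ⟨hzX, hzu⟩, hzo⟩ := hq
    simp only at hj hzX hzu hzo
    have h4 : ∃ k ∈ range M, ∃ z' ∈ X, src w g y k z' = src w g y j z ∧ k ≠ j := by
      by_contra hcon
      push Not at hcon
      apply hzu
      rw [uniq, mem_filter]
      exact ⟨hzX, fun k hk z' hz' he => hcon k hk z' hz' he⟩
    obtain ⟨k, hk, z', hz', he, hne⟩ := h4
    have h5 : j < k := by
      rcases Nat.lt_trichotomy j k with h | h | h
      · exact h
      · exact absurd h.symm hne
      · exfalso
        apply hzo
        rw [old, mem_filter]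
        exact ⟨hzX, k, mem_range.2 h, z', hz', he⟩
    refine ⟨⟨k, z'⟩, ?_, he⟩
    rw [mem_sigma]
    refine ⟨hk, ?_⟩
    simp only
    rw [old, mem_filter]
    exact ⟨hz', j, mem_range.2 h5, z, hzX, he.symm⟩
  choose! r hr hre using hex
  apply card_le_card_of_injOn r
  · intro q hq
    exact hr q hq
  · intro q1 hq1 q2 hq2 he
    have e1 := hre q1 hq1
    have e2 := hre q2 hq2
    rw [he] at e1
    have e3 : src w g y q1.1 q1.2 = src w g y q2.1 q2.2 := e1.symm.trans e2
    obtain ⟨j1, z1⟩ := q1
    obtain ⟨j2, z2⟩ := q2
    rw [mem_coe, mem_sigma, mem_sdiff, mem_sdiff] at hq1 hq2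
    simp only at hq1 hq2 e3
    have e4 : j1 = j2 := by
      rcases Nat.lt_trichotomy j1 j2 with h | h | h
      · exfalso
        apply hq2.2.2
        rw [old, mem_filter]
        exact ⟨hq2.2.1.1, j1, mem_range.2 h, z1, hq1.2.1.1, e3⟩
      · exact h
      · exfalso
        apply hq1.2.2
        rw [old, mem_filter]
        exact ⟨hq1.2.1.1, j2, mem_range.2 h, z2, hq2.2.1.1, e3.symm⟩
    subst e4
    rw [src_inj w g y j1 e3]

theorem many_old (M p : ℕ) (hp : 0 < p) (hX : X.card = 8 * p)
    (hu : ∀ j ∈ range M, (uniq w g y X M j).card < p) :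
    M ≤ 3 * ((range M).filter fun j => p ≤ (old w g y X j).card).card := by
  have h1 := count w g y X M
  have h2 : M * (7 * p) ≤ ∑ j ∈ range M, (X.card - (uniq w g y X M j).card) := by
    have : ∑ j ∈ range M, 7 * p ≤ ∑ j ∈ range M, (X.card - (uniq w g y X M j).card) := by
      apply sum_le_sum
      intro j hj
      have := hu j hj
      omega
    simpa using this
  obtain ⟨J, hJ⟩ : ∃ J, J = ((range M).filter fun j => p ≤ (old w g y X j).card).card := ⟨_, rfl⟩
  have h3 : ∑ j ∈ range M, (old w g y X j).card ≤ M * p + 7 * p * J := by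
    have h4 : ∀ j ∈ range M, (old w g y X j).card ≤
        p + 7 * p * (if p ≤ (old w g y X j).card then 1 else 0) := by
      intro j _
      split_ifs with h
      · have : (old w g y X j).card ≤ X.card := card_le_card (filter_subset _ _)
        omega
      · omega
    refine (sum_le_sum h4).trans ?_
    rw [sum_add_distrib, ← mul_sum, ← card_filter, ← hJ, sum_const, card_range, smul_eq_mul]
  rw [← hJ]
  have h5 : M * (7 * p) ≤ 2 * (M * p + 7 * p * J) := (h2.trans h1).trans (Nat.mul_le_mul_left 2 h3)
  have h6 : M * 5 ≤ 14 * J := by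
    have : p * (M * 5) ≤ p * (14 * J) := by nlinarith
    exact Nat.le_of_mul_le_mul_left this hp
  omega

end count

open Classical in
/-- the conditional probability of many old tokens -/
theorem old_le (M p : ℕ) (g : ℕ → Bool) (y : Equiv.Perm α) (X : Finset α)
    (ν : Equiv.Perm α → ℝ) (hν : ∀ h, 0 ≤ ν h) {q : ℝ}
    (hSM : ∀ A B : Finset α, A.card = p → B.card ≤ M * X.card →
      ∑ h, ν h * (if ∀ a ∈ A, h a ∈ B then 1 else 0) ≤ q)
    (j : ℕ) (hj : j < M) (w : ℕ → Equiv.Perm α) :
    ∑ h, ν h * (if p ≤ (old (Function.update w j h) g y X j).card then 1 else 0) ≤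
      (X.card.choose p) * q := by
  -- the word before the word `j`
  obtain ⟨c, hc⟩ : ∃ c : Equiv.Perm α, ∀ h, T (Function.update w j h) g y j = h * c := by
    rcases j with _ | j
    · refine ⟨1, fun h => ?_⟩
      simp [T]
    · refine ⟨lt y (g j) * T w g y j, fun h => ?_⟩
      show Function.update w (j + 1) h (j + 1) * lt y (g j) *
        T (Function.update w (j + 1) h) g y j = _
      rw [Function.update_self, mul_assoc, T_loc (Function.update w (j + 1) h) w g y j]
      intro l hl
      rw [Function.update_of_ne (by omega)]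
  obtain ⟨U, hU⟩ : ∃ U : Finset α, U = ((range j) ×ˢ X).image fun r => src w g y r.1 r.2 :=
    ⟨_, rfl⟩
  have hUc : U.card ≤ M * X.card := by
    rw [hU]
    refine card_image_le.trans ?_
    rw [card_product, card_range]
    exact Nat.mul_le_mul_right _ hj.le
  obtain ⟨B, hB⟩ : ∃ B : Finset α, B = if g j then U else U.image y := ⟨_, rfl⟩
  have hBc : B.card ≤ M * X.card := by
    rw [hB]
    split_ifs
    · exact hUc
    · exact card_image_le.trans hUc
  have hold : ∀ h, ∀ z ∈ old (Function.update w j h) g y X j, h (c z) ∈ B := by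
    intro h z hz
    rw [old, mem_filter] at hz
    obtain ⟨_, k, hk, z', hz', he⟩ := hz
    rw [mem_range] at hk
    have e1 : src (Function.update w j h) g y k z' = src w g y k z' := by
      apply src_loc
      intro l hl
      rw [Function.update_of_ne (by omega)]
    rw [e1] at he
    have hmem : src w g y k z' ∈ U := by
      rw [hU]
      exact mem_image.2 ⟨(k, z'), mem_product.2 ⟨mem_range.2 hk, hz'⟩, rfl⟩
    rw [he] at hmem
    unfold src at hmem
    rw [hc h, Equiv.Perm.mul_apply] at hmem
    rw [hB]
    cases hg : g j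
    · rw [hg] at hmem
      simp only [Bool.false_eq_true, if_false] at hmem ⊢
      exact mem_image.2 ⟨_, hmem, y_inv y _⟩
    · rw [hg] at hmem
      simpa using hmem
  have h1 : ∀ h, (if p ≤ (old (Function.update w j h) g y X j).card then (1 : ℝ) else 0) ≤
      ∑ S ∈ powersetCard p X, (if ∀ a ∈ S.image c, h a ∈ B then (1 : ℝ) else 0) := by
    intro h
    split_ifs with hle
    · obtain ⟨S, hS, hSc⟩ := exists_subset_card_eq hle
      have hmem : S ∈ powersetCard p X := by
        rw [mem_powersetCard]
        exact ⟨hS.trans (filter_subset _ _), hSc⟩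
      refine le_trans ?_ (single_le_sum (f := fun S : Finset α =>
        (if ∀ a ∈ S.image c, h a ∈ B then (1 : ℝ) else 0)) ?_ hmem)
      · show (1 : ℝ) ≤ if ∀ a ∈ S.image c, h a ∈ B then (1 : ℝ) else 0
        rw [if_pos]
        intro a ha
        rw [mem_image] at ha
        obtain ⟨z, hz, rfl⟩ := ha
        exact hold h z (hS hz)
      · intro S _
        show (0 : ℝ) ≤ if ∀ a ∈ S.image c, h a ∈ B then (1 : ℝ) else 0
        split_ifs
        · exact zero_le_one
        · exact le_rfl
    · apply sum_nonneg
      intro S _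
      split_ifs
      · exact zero_le_one
      · exact le_rfl
  calc _ ≤ ∑ h, ν h * ∑ S ∈ powersetCard p X,
        (if ∀ a ∈ S.image c, h a ∈ B then (1 : ℝ) else 0) := by
        apply sum_le_sum
        intro h _
        exact mul_le_mul_of_nonneg_left (h1 h) (hν h)
    _ = ∑ S ∈ powersetCard p X, ∑ h, ν h *
        (if ∀ a ∈ S.image c, h a ∈ B then (1 : ℝ) else 0) := by
        rw [sum_comm]
        apply sum_congr rfl
        intro h _
        rw [mul_sum]
    _ ≤ ∑ S ∈ powersetCard p X, q := by
        apply sum_le_sum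
        intro S hS
        rw [mem_powersetCard] at hS
        apply hSM
        · rw [card_image_of_injective _ c.injective, hS.2]
        · exact hBc
    _ = (X.card.choose p) * q := by
        rw [sum_const, card_powersetCard, nsmul_eq_mul]

open Classical in
/-- LEMMA CLOSE -/
theorem close (M p : ℕ) (hp : 0 < p) (g : ℕ → Bool) (X : Finset α) (hX : X.card = 8 * p)
    (ν : ℕ → Equiv.Perm α → ℝ) (hν : ∀ k h, 0 ≤ ν k h) (hν1 : ∀ k, ∑ h, ν k h = 1) {q : ℝ}
    (hq : 0 ≤ q) (hSM : ∀ k < M, ∀ A B : Finset α, A.card = p → B.card ≤ M * X.card →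
      ∑ h, ν k h * (if ∀ a ∈ A, h a ∈ B then 1 else 0) ≤ q)
    (hn : M * X.card < Fintype.card α) :
    (∑ w : Fin (M + 1) → Equiv.Perm α, (∏ k : Fin (M + 1), ν k (w k)) *
      ((univ.filter fun y : Equiv.Perm α => ∀ z ∈ X, T (extw w) g y M z = z).card : ℝ)) ≤
    (Fintype.card α).factorial * (M * (8 * p).choose p /
      ((Fintype.card α - M * X.card : ℕ) : ℝ) ^ p +
        (M.choose ((M + 2) / 3)) * ((8 * p).choose p * q) ^ ((M + 2) / 3)) := by
  have hnp : (0 : ℝ) < ((Fintype.card α - M * X.card : ℕ) : ℝ) ^ p := by
    apply pow_pos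
    have : 0 < Fintype.card α - M * X.card := by omega
    exact_mod_cast this
  have hprod : ∀ w : Fin (M + 1) → Equiv.Perm α, 0 ≤ ∏ k : Fin (M + 1), ν k (w k) :=
    fun w => prod_nonneg fun k _ => hν _ _
  have hsum1 : ∑ w : Fin (M + 1) → Equiv.Perm α, ∏ k : Fin (M + 1), ν k (w k) = 1 := by
    rw [← Fintype.prod_sum fun (k : Fin (M + 1)) (h : Equiv.Perm α) => ν k h]
    exact prod_eq_one fun k _ => hν1 _
  -- for fixed words
  have key : ∀ w : Fin (M + 1) → Equiv.Perm α,
      ((univ.filter fun y : Equiv.Perm α => ∀ z ∈ X, T (extw w) g y M z = z).card : ℝ) ≤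
      (Fintype.card α).factorial * (M * (8 * p).choose p /
        ((Fintype.card α - M * X.card : ℕ) : ℝ) ^ p) +
      ∑ y : Equiv.Perm α, (if (M + 2) / 3 ≤
        ((range M).filter fun j => p ≤ (old (extw w) g y X j).card).card then (1 : ℝ) else 0) := by
    intro w
    have h1 : (univ.filter fun y : Equiv.Perm α => ∀ z ∈ X, T (extw w) g y M z = z) ⊆
        ((range M).biUnion fun j => (powersetCard p X).biUnion fun B =>
          univ.filter fun y : Equiv.Perm α => (∀ z ∈ X, T (extw w) g y M z = z) ∧
            ∀ z ∈ B, ∀ k < M, ∀ z' ∈ X, src (extw w) g y k z' = src (extw w) g y j z → k = j) ∪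
        univ.filter fun y : Equiv.Perm α => (M + 2) / 3 ≤
          ((range M).filter fun j => p ≤ (old (extw w) g y X j).card).card := by
      intro y hy
      rw [mem_filter] at hy
      rw [mem_union]
      by_cases hu : ∀ j ∈ range M, (uniq (extw w) g y X M j).card < p
      · right
        rw [mem_filter]
        refine ⟨mem_univ _, ?_⟩
        have := many_old (extw w) g y X M p hp hX hu
        omega
      · left
        push Not at hu
        obtain ⟨j, hj, hle⟩ := hu
        obtain ⟨B, hB, hBc⟩ := exists_subset_card_eq hle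
        rw [mem_biUnion]
        refine ⟨j, hj, ?_⟩
        rw [mem_biUnion]
        refine ⟨B, mem_powersetCard.2 ⟨hB.trans (filter_subset _ _), hBc⟩, ?_⟩
        rw [mem_filter]
        refine ⟨mem_univ _, hy.2, ?_⟩
        intro z hz k hk z' hz' he
        have := hB hz
        rw [uniq, mem_filter] at this
        exact this.2 k (mem_range.2 hk) z' hz' he
    have h2 : ((univ.filter fun y : Equiv.Perm α => ∀ z ∈ X, T (extw w) g y M z = z).card : ℝ) ≤
        (∑ j ∈ range M, ∑ B ∈ powersetCard p X, ((univ.filter fun y : Equiv.Perm α =>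
          (∀ z ∈ X, T (extw w) g y M z = z) ∧
            ∀ z ∈ B, ∀ k < M, ∀ z' ∈ X,
              src (extw w) g y k z' = src (extw w) g y j z → k = j).card : ℝ)) +
        ((univ.filter fun y : Equiv.Perm α => (M + 2) / 3 ≤
          ((range M).filter fun j => p ≤ (old (extw w) g y X j).card).card).card : ℝ) := by
      have h3 := (card_le_card h1).trans (card_union_le _ _)
      have h4 : (((range M).biUnion fun j => (powersetCard p X).biUnion fun B =>
          univ.filter fun y : Equiv.Perm α => (∀ z ∈ X, T (extw w) g y M z = z) ∧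
            ∀ z ∈ B, ∀ k < M, ∀ z' ∈ X,
              src (extw w) g y k z' = src (extw w) g y j z → k = j)).card ≤
          ∑ j ∈ range M, ∑ B ∈ powersetCard p X, (univ.filter fun y : Equiv.Perm α =>
          (∀ z ∈ X, T (extw w) g y M z = z) ∧
            ∀ z ∈ B, ∀ k < M, ∀ z' ∈ X,
              src (extw w) g y k z' = src (extw w) g y j z → k = j).card :=
        card_biUnion_le.trans (sum_le_sum fun j _ => card_biUnion_le)
      have h5 := h3.trans (Nat.add_le_add_right h4 _)
      exact_mod_cast h5
    refine h2.trans (add_le_add ?_ ?_)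
    · have h3 : ∀ j ∈ range M, ∀ B ∈ powersetCard p X, ((univ.filter fun y : Equiv.Perm α =>
          (∀ z ∈ X, T (extw w) g y M z = z) ∧
            ∀ z ∈ B, ∀ k < M, ∀ z' ∈ X,
              src (extw w) g y k z' = src (extw w) g y j z → k = j).card : ℝ) ≤
          (Fintype.card α).factorial / ((Fintype.card α - M * X.card : ℕ) : ℝ) ^ p := by
        intro j hj B hB
        rw [mem_powersetCard] at hB
        rw [le_div_iff₀ hnp]
        have h4 := partA M (extw w) g j X (mem_range.1 hj) B hB.1
        rw [hB.2] at h4
        have h5 : ((univ.filter fun y : Equiv.Perm α =>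
          (∀ z ∈ X, T (extw w) g y M z = z) ∧
            ∀ z ∈ B, ∀ k < M, ∀ z' ∈ X,
              src (extw w) g y k z' = src (extw w) g y j z → k = j).card *
          (Fintype.card α - M * X.card) ^ p : ℕ) ≤ ((Fintype.card α).factorial : ℕ) := by
          convert h4
        exact_mod_cast h5
      refine (sum_le_sum fun j hj => sum_le_sum fun B hB => h3 j hj B hB).trans (le_of_eq ?_)
      rw [sum_const, sum_const, card_powersetCard, card_range, nsmul_eq_mul, nsmul_eq_mul, hX]
      ring
    · rw [card_filter]
      push_cast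
      exact le_rfl
  have hbad := fun y : Equiv.Perm α => seq_many (M := M + 1) (M0 := M) (J := (M + 2) / 3) ν hν hν1
    (fun j w => p ≤ (old w g y X j).card)
    (by
      intro k w w' h
      have : old w g y X k = old w' g y X k := by
        unfold old
        apply filter_congr
        intro z _
        have hk : src w g y k z = src w' g y k z := src_loc w w' g y k h z
        constructor
        · rintro ⟨l, hl, z', hz', he⟩
          refine ⟨l, hl, z', hz', ?_⟩
          rw [← hk, ← he]
          exact (src_loc w w' g y l (fun i hi => h i (by have := mem_range.1 hl; omega)) z').symm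
        · rintro ⟨l, hl, z', hz', he⟩
          refine ⟨l, hl, z', hz', ?_⟩
          rw [hk, ← he]
          exact src_loc w w' g y l (fun i hi => h i (by have := mem_range.1 hl; omega)) z'
      rw [this])
    (Q := (8 * p).choose p * q) (by positivity) (Nat.le_succ M)
    (by
      intro k hk w
      have := old_le M p g y X (ν k) (hν k) (hSM k hk) k hk w
      rw [hX] at this
      convert this)
  calc _ ≤ ∑ w : Fin (M + 1) → Equiv.Perm α, (∏ k : Fin (M + 1), ν k (w k)) *
      ((Fintype.card α).factorial * (M * (8 * p).choose p /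
        ((Fintype.card α - M * X.card : ℕ) : ℝ) ^ p) +
      ∑ y : Equiv.Perm α, (if (M + 2) / 3 ≤
        ((range M).filter fun j => p ≤ (old (extw w) g y X j).card).card then (1 : ℝ) else 0)) :=
        sum_le_sum fun w _ => mul_le_mul_of_nonneg_left (key w) (hprod w)
    _ = (Fintype.card α).factorial * (M * (8 * p).choose p /
        ((Fintype.card α - M * X.card : ℕ) : ℝ) ^ p) +
        ∑ y : Equiv.Perm α, ∑ w : Fin (M + 1) → Equiv.Perm α, (∏ k : Fin (M + 1), ν k (w k)) *
        (if (M + 2) / 3 ≤
        ((range M).filter fun j => p ≤ (old (extw w) g y X j).card).card then (1 : ℝ) else 0) := by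
        rw [sum_comm]
        simp only [mul_add, sum_add_distrib]
        congr 1
        · rw [← sum_mul, hsum1, one_mul]
        · apply sum_congr rfl
          intro w _
          rw [mul_sum]
    _ ≤ (Fintype.card α).factorial * (M * (8 * p).choose p /
        ((Fintype.card α - M * X.card : ℕ) : ℝ) ^ p) +
        ∑ _y : Equiv.Perm α, (M.choose ((M + 2) / 3)) *
          ((8 * p).choose p * q) ^ ((M + 2) / 3) :=
        add_le_add le_rfl (sum_le_sum fun y _ =>
          (le_of_eq (sum_congr rfl fun w _ => by congr)).trans (hbad y))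
    _ = _ := by
        rw [sum_const, card_univ, Fintype.card_perm, nsmul_eq_mul]
        ring

end Pool.Agent.Helper15.FS
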