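import Mathlib

/-!
# Closing of many tokens, part A: a letter with many unique tokens

`T w g y j` is the word before the letter `j`: `w j * y^± * ... * y^± * w 0`; the letter `j` is `y` if
`g j = true` and `y⁻¹` otherwise. `src w g y j z` is the source of the `y`-edge which the token
starting at `z` uses at the letter `j`.
-/

set_option autoImplicit false
set_option linter.unusedSectionVars false

namespace Pool.Agent.Helper15.FS

open Finset

variable {α : Type*} [Fintype α] [DecidableEq α]

/-- a letter -/
def lt (y : Equiv.Perm α) (b : Bool) : Equiv.Perm α := if b then y else y⁻¹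

/-- the word before the letter `j` -/
def T (w : ℕ → Equiv.Perm α) (g : ℕ → Bool) (y : Equiv.Perm α) : ℕ → Equiv.Perm α
  | 0 => w 0
  | j + 1 => w (j + 1) * lt y (g j) * T w g y j

/-- the source of the edge used by the token `z` at the letter `j` -/
def src (w : ℕ → Equiv.Perm α) (g : ℕ → Bool) (y : Equiv.Perm α) (j : ℕ) (z : α) : α :=
  if g j then T w g y j z else y⁻¹ (T w g y j z)

/-- the reversed words -/
def rw' (M : ℕ) (w : ℕ → Equiv.Perm α) : ℕ → Equiv.Perm α := fun d => (w (M - d))⁻¹

/-- the reversed letters -/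
def rg (M : ℕ) (g : ℕ → Bool) : ℕ → Bool := fun d => !(g (M - 1 - d))

theorem y_inv (y : Equiv.Perm α) (a : α) : y (y⁻¹ a) = a := by
  rw [← Equiv.Perm.mul_apply, mul_inv_cancel, Equiv.Perm.one_apply]

theorem lt_not (y : Equiv.Perm α) (b : Bool) : lt y (!b) = (lt y b)⁻¹ := by
  cases b <;> simp [lt]

theorem T_rev (M : ℕ) (w : ℕ → Equiv.Perm α) (g : ℕ → Bool) (y : Equiv.Perm α) :
    ∀ d, d + 1 ≤ M → T (rw' M w) (rg M g) y d * T w g y M =
      lt y (g (M - 1 - d)) * T w g y (M - 1 - d) := by
  intro d
  induction d with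
  | zero =>
    intro h
    obtain ⟨K, rfl⟩ : ∃ K, M = K + 1 := ⟨M - 1, by omega⟩
    simp only [T, rw', Nat.sub_zero, Nat.add_sub_cancel]
    group
  | succ d ih =>
    intro h
    have h1 := ih (by omega)
    obtain ⟨K, hK⟩ : ∃ K, M - 1 - d = K + 1 := ⟨M - 2 - d, by omega⟩
    have e1 : M - 1 - (d + 1) = K := by omega
    have e2 : M - (d + 1) = K + 1 := by omega
    rw [e1]
    rw [hK] at h1
    show rw' M w (d + 1) * lt y (rg M g d) * T (rw' M w) (rg M g) y d * T w g y M = _
    rw [mul_assoc, h1]
    have e3 : rg M g d = !(g (K + 1)) := by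
      unfold rg
      rw [hK]
    rw [e3, lt_not]
    unfold rw'
    rw [e2]
    show (w (K + 1))⁻¹ * (lt y (g (K + 1)))⁻¹ *
      (lt y (g (K + 1)) * (w (K + 1) * lt y (g K) * T w g y K)) = _
    group

/-- the edge at the letter `j`: the source -/
theorem src_rev (M : ℕ) (w : ℕ → Equiv.Perm α) (g : ℕ → Bool) (y : Equiv.Perm α) {z : α}
    (hz : T w g y M z = z) {d : ℕ} (hd : d + 1 ≤ M) :
    src (rw' M w) (rg M g) y d z = src w g y (M - 1 - d) z := by
  have h1 : T (rw' M w) (rg M g) y d z = lt y (g (M - 1 - d)) (T w g y (M - 1 - d) z) := by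
    have := congrArg (fun p : Equiv.Perm α => p z) (T_rev M w g y d hd)
    simp only [Equiv.Perm.mul_apply] at this
    rw [hz] at this
    exact this
  unfold src
  rw [h1]
  unfold rg lt
  cases g (M - 1 - d) <;> simp

/-- words agree as long as the letters agree on the sources -/
theorem T_agree (w : ℕ → Equiv.Perm α) (g : ℕ → Bool) (y y' : Equiv.Perm α) (z : α) (j : ℕ)
    (h : ∀ k < j, y' (src w g y k z) = y (src w g y k z)) :
    ∀ k ≤ j, T w g y' k z = T w g y k z := by
  intro k
  induction k with
  | zero => intro _; rfl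
  | succ k ih =>
    intro hk
    have h1 := ih (by omega)
    have h2 := h k (by omega)
    show w (k + 1) (lt y' (g k) (T w g y' k z)) = w (k + 1) (lt y (g k) (T w g y k z))
    rw [h1]
    congr 1
    unfold src at h2
    unfold lt
    cases hg : g k
    · rw [hg] at h2
      simp only [Bool.false_eq_true, if_false] at h2 ⊢
      rw [y_inv] at h2
      rw [Equiv.Perm.inv_eq_iff_eq]
      exact h2.symm
    · rw [hg] at h2
      simpa using h2

theorem src_agree (w : ℕ → Equiv.Perm α) (g : ℕ → Bool) (y y' : Equiv.Perm α) (z : α) (j : ℕ)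
    (h : ∀ k < j, y' (src w g y k z) = y (src w g y k z)) :
    ∀ k < j, src w g y' k z = src w g y k z := by
  intro k hk
  have h1 := T_agree w g y y' z j h k hk.le
  have h2 := h k hk
  unfold src at h2 ⊢
  rw [h1]
  cases hg : g k
  · rw [hg] at h2
    simp only [Bool.false_eq_true, if_false] at h2 ⊢
    rw [y_inv] at h2
    rw [Equiv.Perm.inv_eq_iff_eq]
    exact h2.symm
  · simp

section unique

variable (M : ℕ) (w : ℕ → Equiv.Perm α) (g : ℕ → Bool) (j : ℕ) (X : Finset α)

/-- the sources used before the letter `j` by the forward paths and after it by the backward paths -/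
def VV (y : Equiv.Perm α) : Finset α :=
  ((range j) ×ˢ X).image (fun p => src w g y p.1 p.2) ∪
    ((range (M - 1 - j)) ×ˢ X).image (fun p => src (rw' M w) (rg M g) y p.1 p.2)

/-- the source at the letter `j` -/
def sj (y : Equiv.Perm α) (z : α) : α :=
  if g j then T w g y j z else T (rw' M w) (rg M g) y (M - 1 - j) z

/-- the target at the letter `j` -/
def tj (y : Equiv.Perm α) (z : α) : α :=
  if g j then T (rw' M w) (rg M g) y (M - 1 - j) z else T w g y j z

theorem sj_inj (y : Equiv.Perm α) : Function.Injective (sj M w g j y) := by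
  intro z z' h
  unfold sj at h
  cases hg : g j
  · rw [hg] at h
    simp only [Bool.false_eq_true, if_false] at h
    exact (T (rw' M w) (rg M g) y (M - 1 - j)).injective h
  · rw [hg] at h
    simp only [if_true] at h
    exact (T w g y j).injective h

theorem card_VV (y : Equiv.Perm α) : (VV M w g j X y ∪ X.image (sj M w g j y)).card ≤
    (j + (M - 1 - j) + 1) * X.card := by
  refine (card_union_le _ _).trans ?_
  have h1 : (VV M w g j X y).card ≤ (j + (M - 1 - j)) * X.card := by
    refine (card_union_le _ _).trans ?_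
    rw [add_mul]
    apply add_le_add
    · refine card_image_le.trans ?_
      rw [card_product, card_range]
    · refine card_image_le.trans ?_
      rw [card_product, card_range]
  have h2 : (X.image (sj M w g j y)).card ≤ X.card := card_image_le
  calc _ ≤ (j + (M - 1 - j)) * X.card + X.card := add_le_add h1 h2
    _ = _ := by ring

/-- everything agrees if the letters agree on `VV` -/
theorem VV_agree (y y' : Equiv.Perm α) (h : ∀ s ∈ VV M w g j X y, y' s = y s) :
    (∀ z ∈ X, sj M w g j y' z = sj M w g j y z) ∧ (∀ z ∈ X, tj M w g j y' z = tj M w g j y z) ∧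
      VV M w g j X y' = VV M w g j X y := by
  have f1 : ∀ z ∈ X, ∀ k < j, y' (src w g y k z) = y (src w g y k z) := by
    intro z hz k hk
    apply h
    apply mem_union_left
    exact mem_image.2 ⟨(k, z), mem_product.2 ⟨mem_range.2 hk, hz⟩, rfl⟩
  have f2 : ∀ z ∈ X, ∀ k < M - 1 - j, y' (src (rw' M w) (rg M g) y k z) =
      y (src (rw' M w) (rg M g) y k z) := by
    intro z hz k hk
    apply h
    apply mem_union_right
    exact mem_image.2 ⟨(k, z), mem_product.2 ⟨mem_range.2 hk, hz⟩, rfl⟩
  have g1 : ∀ z ∈ X, T w g y' j z = T w g y j z := fun z hz =>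
    T_agree w g y y' z j (f1 z hz) j le_rfl
  have g2 : ∀ z ∈ X, T (rw' M w) (rg M g) y' (M - 1 - j) z =
      T (rw' M w) (rg M g) y (M - 1 - j) z := fun z hz =>
    T_agree (rw' M w) (rg M g) y y' z (M - 1 - j) (f2 z hz) (M - 1 - j) le_rfl
  refine ⟨?_, ?_, ?_⟩
  · intro z hz
    unfold sj
    rw [g1 z hz, g2 z hz]
  · intro z hz
    unfold tj
    rw [g1 z hz, g2 z hz]
  · unfold VV
    congr 1
    · apply image_congr
      intro p hp
      rw [mem_coe, mem_product, mem_range] at hp
      exact src_agree w g y y' p.2 j (f1 p.2 hp.2) p.1 hp.1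
    · apply image_congr
      intro p hp
      rw [mem_coe, mem_product, mem_range] at hp
      exact src_agree (rw' M w) (rg M g) y y' p.2 (M - 1 - j) (f2 p.2 hp.2) p.1 hp.1

open Classical in
/-- all tokens outside `B'` close, the tokens of `B` have fresh sources -/
noncomputable def YY (B B' : Finset α) : Finset (Equiv.Perm α) :=
  univ.filter fun y => (∀ z ∈ X, z ∉ B' → y (sj M w g j y z) = tj M w g j y z) ∧
    ∀ z ∈ B, sj M w g j y z ∉ VV M w g j X y

theorem YY_step (B B' : Finset α) (hB : B ⊆ X) {z0 : α} (hz0 : z0 ∈ B) (hz0' : z0 ∉ B') :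
    (YY M w g j X B B').card * (Fintype.card α - (j + (M - 1 - j) + 1) * X.card) ≤
      (YY M w g j X B (insert z0 B')).card := by
  classical
  have h1 : (YY M w g j X B B').card * (Fintype.card α - (j + (M - 1 - j) + 1) * X.card) ≤
      ((YY M w g j X B B').sigma fun y => (VV M w g j X y ∪ X.image (sj M w g j y))ᶜ).card := by
    rw [card_sigma, ← smul_eq_mul]
    apply card_nsmul_le_sum
    intro y _
    rw [card_compl]
    have := card_VV M w g j X y
    omega
  refine h1.trans ?_
  apply card_le_card_of_injOn (fun p => p.1 * Equiv.swap (sj M w g j p.1 z0) p.2)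
  · rintro ⟨y, u⟩ hp
    rw [mem_coe, mem_sigma] at hp
    obtain ⟨hy, hu⟩ := hp
    simp only at hy hu
    rw [YY, mem_filter] at hy
    rw [mem_compl, mem_union, not_or] at hu
    obtain ⟨-, hy1, hy2⟩ := hy
    obtain ⟨hu1, hu2⟩ := hu
    have hag : ∀ s ∈ VV M w g j X y, (y * Equiv.swap (sj M w g j y z0) u) s = y s := by
      intro s hs
      rw [Equiv.Perm.mul_apply, Equiv.swap_apply_of_ne_of_ne]
      · rintro rfl; exact hy2 z0 hz0 hs
      · rintro rfl; exact hu1 hs
    obtain ⟨a1, a2, a3⟩ := VV_agree M w g j X y _ hag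
    simp only [mem_coe]
    rw [YY, mem_filter]
    refine ⟨mem_univ _, ?_, ?_⟩
    · intro z hz hzB
      rw [mem_insert, not_or] at hzB
      rw [a1 z hz, a2 z hz, Equiv.Perm.mul_apply, Equiv.swap_apply_of_ne_of_ne]
      · exact hy1 z hz hzB.2
      · intro h
        exact hzB.1 (sj_inj M w g j y h)
      · rintro h
        exact hu2 (mem_image.2 ⟨z, hz, h⟩)
    · intro z hz
      rw [a1 z (hB hz), a3]
      exact hy2 z hz
  · rintro ⟨y, u⟩ hp ⟨y', u'⟩ hp' heq
    rw [mem_coe, mem_sigma] at hp hp'
    obtain ⟨hy, hu⟩ := hp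
    obtain ⟨hy', hu'⟩ := hp'
    simp only at hy hu hy' hu' heq
    rw [YY, mem_filter] at hy hy'
    rw [mem_compl, mem_union, not_or] at hu hu'
    obtain ⟨-, hy1, hy2⟩ := hy
    obtain ⟨hu1, hu2⟩ := hu
    obtain ⟨-, hy1', hy2'⟩ := hy'
    obtain ⟨hu1', hu2'⟩ := hu'
    have hag : ∀ s ∈ VV M w g j X y, (y * Equiv.swap (sj M w g j y z0) u) s = y s := by
      intro s hs
      rw [Equiv.Perm.mul_apply, Equiv.swap_apply_of_ne_of_ne]
      · rintro rfl; exact hy2 z0 hz0 hs
      · rintro rfl; exact hu1 hs
    have hag' : ∀ s ∈ VV M w g j X y', (y' * Equiv.swap (sj M w g j y' z0) u') s = y' s := by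
      intro s hs
      rw [Equiv.Perm.mul_apply, Equiv.swap_apply_of_ne_of_ne]
      · rintro rfl; exact hy2' z0 hz0 hs
      · rintro rfl; exact hu1' hs
    obtain ⟨a1, a2, -⟩ := VV_agree M w g j X y _ hag
    obtain ⟨b1, b2, -⟩ := VV_agree M w g j X y' _ hag'
    have hX0 := hB hz0
    have es : sj M w g j y z0 = sj M w g j y' z0 := by
      rw [← a1 z0 hX0, ← b1 z0 hX0, heq]
    have et : tj M w g j y z0 = tj M w g j y' z0 := by
      rw [← a2 z0 hX0, ← b2 z0 hX0, heq]
    have c1 : (y * Equiv.swap (sj M w g j y z0) u) u = tj M w g j y z0 := by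
      rw [Equiv.Perm.mul_apply, Equiv.swap_apply_right]
      exact hy1 z0 hX0 hz0'
    have c2 : (y' * Equiv.swap (sj M w g j y' z0) u') u' = tj M w g j y' z0 := by
      rw [Equiv.Perm.mul_apply, Equiv.swap_apply_right]
      exact hy1' z0 hX0 hz0'
    have eu : u = u' := by
      apply (y * Equiv.swap (sj M w g j y z0) u).injective
      rw [c1, et, ← c2, heq]
    subst eu
    rw [es] at heq
    have ey : y = y' := mul_right_cancel heq
    subst ey
    rfl

theorem YY_le (B : Finset α) (hB : B ⊆ X) : ∀ B' : Finset α, B' ⊆ B →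
    (YY M w g j X B (B \ B')).card *
      (Fintype.card α - (j + (M - 1 - j) + 1) * X.card) ^ B'.card ≤
      (Fintype.card α).factorial := by
  intro B'
  induction B' using Finset.induction_on with
  | empty =>
    intro _
    rw [card_empty, pow_zero, mul_one, ← Fintype.card_perm]
    exact card_le_univ _
  | insert z0 B' hz ih =>
    intro hsub
    have h1 := ih ((subset_insert _ _).trans hsub)
    have hz0 : z0 ∈ B := hsub (mem_insert_self _ _)
    have h2 := YY_step M w g j X B (B \ insert z0 B') hB hz0 (by simp)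
    have h3 : insert z0 (B \ insert z0 B') = B \ B' := by
      ext t
      simp only [mem_insert, mem_sdiff, not_or]
      constructor
      · rintro (rfl | ⟨h, -, h'⟩)
        · exact ⟨hz0, hz⟩
        · exact ⟨h, h'⟩
      · rintro ⟨h, h'⟩
        by_cases ht : t = z0
        · exact Or.inl ht
        · exact Or.inr ⟨h, ht, h'⟩
    rw [h3] at h2
    rw [card_insert_of_notMem hz, pow_succ']
    calc _ = (YY M w g j X B (B \ insert z0 B')).card *
          (Fintype.card α - (j + (M - 1 - j) + 1) * X.card) *
          (Fintype.card α - (j + (M - 1 - j) + 1) * X.card) ^ B'.card := by ring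
      _ ≤ (YY M w g j X B (B \ B')).card *
          (Fintype.card α - (j + (M - 1 - j) + 1) * X.card) ^ B'.card :=
          Nat.mul_le_mul_right _ h2
      _ ≤ _ := h1

open Classical in
/-- Part A: at most the expected number of `y` make all tokens of `X` close while the tokens of `B`
are unique at the letter `j`. -/
theorem partA (hj : j < M) (B : Finset α) (hB : B ⊆ X) :
    (univ.filter fun y : Equiv.Perm α => (∀ z ∈ X, T w g y M z = z) ∧
      ∀ z ∈ B, ∀ k < M, ∀ z' ∈ X, src w g y k z' = src w g y j z → k = j).card *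
      (Fintype.card α - M * X.card) ^ B.card ≤ (Fintype.card α).factorial := by
  have hM : j + (M - 1 - j) + 1 = M := by omega
  have h1 := YY_le M w g j X B hB B subset_rfl
  rw [hM] at h1
  refine le_trans (Nat.mul_le_mul_right _ (card_le_card ?_)) h1
  intro y hy
  rw [mem_filter] at hy
  obtain ⟨-, hc, hu⟩ := hy
  rw [YY, mem_filter]
  have hkey : ∀ z ∈ X, ∀ d, d + 1 ≤ M → T (rw' M w) (rg M g) y d z =
      lt y (g (M - 1 - d)) (T w g y (M - 1 - d) z) := by
    intro z hz d hd
    have := congrArg (fun p : Equiv.Perm α => p z) (T_rev M w g y d hd)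
    simp only [Equiv.Perm.mul_apply] at this
    rw [hc z hz] at this
    exact this
  have hjj : M - 1 - (M - 1 - j) = j := by omega
  have hsj : ∀ z ∈ X, sj M w g j y z = src w g y j z := by
    intro z hz
    have := hkey z hz (M - 1 - j) (by omega)
    rw [hjj] at this
    unfold sj src
    cases hg : g j
    · rw [hg] at this
      simp only [Bool.false_eq_true, if_false]
      rw [this]
      simp [lt]
    · simp
  refine ⟨mem_univ _, ?_, ?_⟩
  · intro z hz _
    have := hkey z hz (M - 1 - j) (by omega)
    rw [hjj] at this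
    rw [hsj z hz]
    unfold tj src
    cases hg : g j
    · simp
    · rw [hg] at this
      simp only [if_true]
      rw [this]
      simp [lt]
  · intro z hz hmem
    rw [hsj z (hB hz)] at hmem
    unfold VV at hmem
    rw [mem_union, mem_image, mem_image] at hmem
    rcases hmem with ⟨⟨k, z'⟩, hk, he⟩ | ⟨⟨d, z'⟩, hk, he⟩
    · rw [mem_product, mem_range] at hk
      have := hu z hz k (by omega) z' hk.2 he
      omega
    · rw [mem_product, mem_range] at hk
      simp only at hk he
      rw [src_rev M w g y (hc z' hk.2) (by omega)] at he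
      have := hu z hz (M - 1 - d) (by omega) z' hk.2 he
      omega

end unique

end Pool.Agent.Helper15.FS
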