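import Pool.Agent.Helper15.FS.CloseA

/-!
# Closing of many tokens, part B: few letters can have many old tokens

`extw` extends a finite sequence of words by `1`. `seq_le`: events which depend on the words `0..k`
and have conditional probability `≤ Q` (given the earlier words) for every `k ∈ K` happen together
with probability `≤ Q ^ #K`.
-/

set_option autoImplicit false
set_option linter.unusedSectionVars false

namespace Pool.Agent.Helper15.FS

open Finset

section seq

variable {G : Type*} [Fintype G] [One G]

/-- the extension by `1` -/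
def extw {M : ℕ} (w : Fin M → G) : ℕ → G := fun k => if h : k < M then w ⟨k, h⟩ else 1

theorem extw_lt {M : ℕ} (w : Fin M → G) {k : ℕ} (h : k < M) : extw w k = w ⟨k, h⟩ := dif_pos h

theorem sum_snoc {M : ℕ} (f : (Fin (M + 1) → G) → ℝ) :
    ∑ w, f w = ∑ w' : Fin M → G, ∑ h : G, f (Fin.snoc w' h) := by
  rw [← (Fin.snocEquiv (fun _ : Fin (M + 1) => G)).sum_comp, Fintype.sum_prod_type_right]
  rfl

theorem extw_snoc_lt {M : ℕ} (w' : Fin M → G) (h : G) {k : ℕ} (hk : k < M) :
    extw (Fin.snoc w' h : Fin (M + 1) → G) k = extw w' k := by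
  rw [extw_lt _ (Nat.lt_succ_of_lt hk), extw_lt _ hk]
  have : (⟨k, Nat.lt_succ_of_lt hk⟩ : Fin (M + 1)) = Fin.castSucc ⟨k, hk⟩ := rfl
  rw [this, Fin.snoc_castSucc]

theorem extw_snoc_eq {M : ℕ} (w' : Fin M → G) (h : G) :
    extw (Fin.snoc w' h : Fin (M + 1) → G) M = h := by
  rw [extw_lt _ (Nat.lt_succ_self M)]
  have : (⟨M, Nat.lt_succ_self M⟩ : Fin (M + 1)) = Fin.last M := rfl
  rw [this, Fin.snoc_last]

theorem prod_snoc {M : ℕ} (ν : ℕ → G → ℝ) (w' : Fin M → G) (h : G) :
    ∏ k : Fin (M + 1), ν k ((Fin.snoc w' h : Fin (M + 1) → G) k) =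
      (∏ k : Fin M, ν k (w' k)) * ν M h := by
  rw [Fin.prod_univ_castSucc]
  congr 1
  · apply prod_congr rfl
    intro k _
    rw [Fin.snoc_castSucc]
    rfl
  · rw [Fin.snoc_last]
    rfl

open Classical in
/-- the sequential bound -/
theorem seq_le (ν : ℕ → G → ℝ) (hν : ∀ k h, 0 ≤ ν k h) (hν1 : ∀ k, ∑ h, ν k h = 1)
    (bad : ℕ → (ℕ → G) → Prop)
    (hloc : ∀ k w w', (∀ l ≤ k, w l = w' l) → (bad k w ↔ bad k w')) {Q : ℝ} (hQ : 0 ≤ Q) :
    ∀ (M : ℕ) (K : Finset ℕ), (∀ k ∈ K, k < M) →
      (∀ k ∈ K, ∀ w : ℕ → G, ∑ h, ν k h * (if bad k (Function.update w k h) then 1 else 0) ≤ Q) →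
      ∑ w : Fin M → G, (∏ k : Fin M, ν k (w k)) * (if ∀ k ∈ K, bad k (extw w) then 1 else 0) ≤
        Q ^ K.card := by
  intro M
  induction M with
  | zero =>
    intro K hK _
    have : K = ∅ := by
      rw [Finset.eq_empty_iff_forall_notMem]
      intro k hk
      exact absurd (hK k hk) (Nat.not_lt_zero k)
    subst this
    simp
  | succ M ih =>
    intro K hK hQK
    rw [sum_snoc]
    have hext : ∀ (w' : Fin M → G) (h : G) (k : ℕ), k < M →
        (bad k (extw (Fin.snoc w' h : Fin (M + 1) → G)) ↔ bad k (extw w')) := by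
      intro w' h k hk
      apply hloc
      intro l hl
      exact extw_snoc_lt w' h (lt_of_le_of_lt hl hk)
    by_cases hMK : M ∈ K
    · have hK' : ∀ k ∈ K.erase M, k < M := by
        intro k hk
        rw [mem_erase] at hk
        have := hK k hk.2
        omega
      have h1 := ih (K.erase M) hK' (fun k hk w => hQK k (mem_of_mem_erase hk) w)
      have hcard : K.card = (K.erase M).card + 1 := by
        rw [card_erase_of_mem hMK]
        have : 0 < K.card := card_pos.2 ⟨M, hMK⟩
        omega
      rw [hcard, pow_succ]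
      refine le_trans ?_ (mul_le_mul_of_nonneg_right h1 hQ)
      rw [sum_mul]
      apply sum_le_sum
      intro w' _
      by_cases hb : ∀ k ∈ K.erase M, bad k (extw w')
      · rw [if_pos hb, mul_one]
        calc ∑ h, (∏ k : Fin (M + 1), ν k ((Fin.snoc w' h : Fin (M + 1) → G) k)) *
              (if ∀ k ∈ K, bad k (extw (Fin.snoc w' h : Fin (M + 1) → G)) then (1 : ℝ) else 0)
            ≤ ∑ h, (∏ k : Fin M, ν k (w' k)) * (ν M h *
              (if bad M (Function.update (extw w') M h) then (1 : ℝ) else 0)) := by
              apply sum_le_sum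
              intro h _
              rw [prod_snoc, mul_assoc]
              apply mul_le_mul_of_nonneg_left _ (prod_nonneg fun k _ => hν _ _)
              apply mul_le_mul_of_nonneg_left _ (hν _ _)
              have hiff : bad M (extw (Fin.snoc w' h : Fin (M + 1) → G)) ↔
                  bad M (Function.update (extw w') M h) := by
                apply hloc
                intro l hl
                rcases Nat.lt_or_ge l M with h2 | h2
                · rw [extw_snoc_lt w' h h2, Function.update_of_ne (by omega)]
                · have : l = M := le_antisymm hl h2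
                  subst this
                  rw [extw_snoc_eq, Function.update_self]
              by_cases hh : ∀ k ∈ K, bad k (extw (Fin.snoc w' h : Fin (M + 1) → G))
              · rw [if_pos hh, if_pos (hiff.1 (hh M hMK))]
              · rw [if_neg hh]
                split_ifs
                · exact zero_le_one
                · exact le_rfl
          _ = (∏ k : Fin M, ν k (w' k)) * ∑ h, ν M h *
              (if bad M (Function.update (extw w') M h) then (1 : ℝ) else 0) := by
              rw [mul_sum]
          _ ≤ (∏ k : Fin M, ν k (w' k)) * Q :=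
              mul_le_mul_of_nonneg_left (hQK M hMK _) (prod_nonneg fun k _ => hν _ _)
      · rw [if_neg hb, mul_zero, zero_mul]
        apply le_of_eq
        apply sum_eq_zero
        intro h _
        rw [if_neg, mul_zero]
        intro hall
        apply hb
        intro k hk
        exact (hext w' h k (hK' k hk)).1 (hall k (mem_of_mem_erase hk))
    · have hK' : ∀ k ∈ K, k < M := by
        intro k hk
        have := hK k hk
        have h2 : k ≠ M := fun h => hMK (h ▸ hk)
        omega
      have h1 := ih K hK' hQK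
      refine le_trans (le_of_eq ?_) h1
      apply sum_congr rfl
      intro w' _
      have : ∀ h, (∏ k : Fin (M + 1), ν k ((Fin.snoc w' h : Fin (M + 1) → G) k)) *
          (if ∀ k ∈ K, bad k (extw (Fin.snoc w' h : Fin (M + 1) → G)) then (1 : ℝ) else 0) =
          ((∏ k : Fin M, ν k (w' k)) * (if ∀ k ∈ K, bad k (extw w') then (1 : ℝ) else 0)) *
            ν M h := by
        intro h
        rw [prod_snoc]
        have hiff : (∀ k ∈ K, bad k (extw (Fin.snoc w' h : Fin (M + 1) → G))) ↔
            ∀ k ∈ K, bad k (extw w') :=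
          forall₂_congr fun k hk => hext w' h k (hK' k hk)
        rw [if_congr hiff rfl rfl]
        ring
      rw [sum_congr rfl fun h _ => this h, ← mul_sum, hν1, mul_one]

open Classical in
/-- many bad times are rare -/
theorem seq_many (ν : ℕ → G → ℝ) (hν : ∀ k h, 0 ≤ ν k h) (hν1 : ∀ k, ∑ h, ν k h = 1)
    (bad : ℕ → (ℕ → G) → Prop)
    (hloc : ∀ k w w', (∀ l ≤ k, w l = w' l) → (bad k w ↔ bad k w')) {Q : ℝ} (hQ : 0 ≤ Q)
    (M M0 J : ℕ) (hM0 : M0 ≤ M)
    (hbd : ∀ k < M0, ∀ w : ℕ → G,
      ∑ h, ν k h * (if bad k (Function.update w k h) then 1 else 0) ≤ Q) :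
    ∑ w : Fin M → G, (∏ k : Fin M, ν k (w k)) *
      (if J ≤ ((range M0).filter fun k => bad k (extw w)).card then 1 else 0) ≤
        (M0.choose J) * Q ^ J := by
  have h1 : ∀ w : Fin M → G, (if J ≤ ((range M0).filter fun k => bad k (extw w)).card
      then (1 : ℝ) else 0) ≤
      ∑ K ∈ powersetCard J (range M0), (if ∀ k ∈ K, bad k (extw w) then (1 : ℝ) else 0) := by
    intro w
    split_ifs with h
    · obtain ⟨K, hK, hKc⟩ := exists_subset_card_eq h
      have hmem : K ∈ powersetCard J (range M0) := by
        rw [mem_powersetCard]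
        exact ⟨hK.trans (filter_subset _ _), hKc⟩
      refine le_trans ?_ (single_le_sum (f := fun K : Finset ℕ =>
        (if ∀ k ∈ K, bad k (extw w) then (1 : ℝ) else 0)) ?_ hmem)
      · show (1 : ℝ) ≤ if ∀ k ∈ K, bad k (extw w) then (1 : ℝ) else 0
        rw [if_pos]
        intro k hk
        exact (mem_filter.1 (hK hk)).2
      · intro K _
        show (0 : ℝ) ≤ if ∀ k ∈ K, bad k (extw w) then (1 : ℝ) else 0
        split_ifs
        · exact zero_le_one
        · exact le_rfl
    · apply sum_nonneg
      intro K _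
      split_ifs
      · exact zero_le_one
      · exact le_rfl
  calc _ ≤ ∑ w : Fin M → G, (∏ k : Fin M, ν k (w k)) *
      ∑ K ∈ powersetCard J (range M0), (if ∀ k ∈ K, bad k (extw w) then (1 : ℝ) else 0) := by
        apply sum_le_sum
        intro w _
        exact mul_le_mul_of_nonneg_left (h1 w) (prod_nonneg fun k _ => hν _ _)
    _ = ∑ K ∈ powersetCard J (range M0), ∑ w : Fin M → G, (∏ k : Fin M, ν k (w k)) *
        (if ∀ k ∈ K, bad k (extw w) then (1 : ℝ) else 0) := by
        rw [sum_comm]
        apply sum_congr rfl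
        intro w _
        rw [mul_sum]
    _ ≤ ∑ K ∈ powersetCard J (range M0), Q ^ J := by
        apply sum_le_sum
        intro K hK
        rw [mem_powersetCard] at hK
        have := seq_le ν hν hν1 bad hloc hQ M K
          (fun k hk => lt_of_lt_of_le (mem_range.1 (hK.1 hk)) hM0)
          (fun k hk w => hbd k (mem_range.1 (hK.1 hk)) w)
        rwa [hK.2] at this
    _ = (M0.choose J) * Q ^ J := by
        rw [sum_const, card_powersetCard, card_range, nsmul_eq_mul]

end seq

end Pool.Agent.Helper15.FS
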