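import Pool.Agent.Helper91.FS.Goals
import Pool.Agent.Helper33.NF.DEG

/-! Packet FS-DEG2: the regular graph of the pairs swapped by an element of `G`. (helper15) -/

set_option autoImplicit false

namespace Pool.Agent.Helper15.FS

open Finset
open Pool.Agent.Helper47.SR (Grp mv lev wt Ew)
open Pool.Agent.Helper49.NF
open Pool.Agent.Helper91.FS
open Pool.Agent.Helper33.NF (Bad Swp ww ww_pair ww_le mem_els wt_nonbad ww_le_wt)

variable {n : ℕ}

theorem bad_conj {G : Grp n} {γ : Equiv.Perm (Fin n)} (hγ : γ ∈ G) {u v : Fin n}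
    (h : Bad G u v) : Bad G (γ u) (γ v) := by
  obtain ⟨δ, h1, h2, h3, h4⟩ := h
  refine ⟨γ * δ * γ⁻¹, G.mul_mem (G.mul_mem hγ h1) (G.inv_mem hγ), ?_, ?_, ?_⟩
  · intro h
    apply h2
    rw [mul_inv_eq_one] at h
    exact mul_left_cancel (a := γ) (by rw [h, mul_one])
  · simp [Equiv.Perm.mul_apply, h3]
  · simp [Equiv.Perm.mul_apply, h4]

theorem swp_conj {G : Grp n} {γ : Equiv.Perm (Fin n)} (hγ : γ ∈ G) {u v : Fin n}
    (h : Swp G u v) : Swp G (γ u) (γ v) := by
  obtain ⟨δ, h1, h2, h3⟩ := h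
  refine ⟨γ * δ * γ⁻¹, G.mul_mem (G.mul_mem hγ h1) (G.inv_mem hγ), ?_, ?_⟩
  · simp [Equiv.Perm.mul_apply, h2]
  · simp [Equiv.Perm.mul_apply, h3]

theorem bad_conj_iff {G : Grp n} {γ : Equiv.Perm (Fin n)} (hγ : γ ∈ G) {u v : Fin n} :
    Bad G (γ u) (γ v) ↔ Bad G u v := by
  refine ⟨fun h => ?_, bad_conj hγ⟩
  have h1 := bad_conj (G.inv_mem hγ) h
  simpa using h1

theorem swp_conj_iff {G : Grp n} {γ : Equiv.Perm (Fin n)} (hγ : γ ∈ G) {u v : Fin n} :
    Swp G (γ u) (γ v) ↔ Swp G u v := by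
  refine ⟨fun h => ?_, swp_conj hγ⟩
  have h1 := swp_conj (G.inv_mem hγ) h
  simpa using h1

theorem ww_conj {G : Grp n} {γ : Equiv.Perm (Fin n)} (hγ : γ ∈ G) {u v : Fin n} (huv : u ≠ v) :
    ww G {γ u, γ v} = ww G {u, v} := by
  have h1 : ww G {γ u, γ v} = 1 ↔ ww G {u, v} = 1 := by
    rw [ww_pair G (γ.injective.ne huv), ww_pair G huv, bad_conj_iff hγ, swp_conj_iff hγ]
  have h2 := ww_le G {γ u, γ v}
  have h3 := ww_le G {u, v}
  omega

theorem bad_pst {G : Grp n} {u v : Fin n} (h : Bad G u v) : pst G {u, v} ≠ 1 := by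
  obtain ⟨δ, h1, h2, h3, h4⟩ := h
  intro h
  unfold pst at h
  obtain ⟨a, ha⟩ := card_eq_one.1 h
  have e1 : (1 : Equiv.Perm (Fin n)) ∈ (els G).filter
      (fun γ => ∀ x ∈ ({u, v} : Finset (Fin n)), γ x = x) :=
    mem_filter.2 ⟨mem_els.2 G.one_mem, fun x _ => rfl⟩
  have e2 : δ ∈ (els G).filter (fun γ => ∀ x ∈ ({u, v} : Finset (Fin n)), γ x = x) := by
    refine mem_filter.2 ⟨mem_els.2 h1, fun x hx => ?_⟩
    rw [mem_insert, mem_singleton] at hx
    rcases hx with rfl | rfl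
    · exact h3
    · exact h4
  rw [ha, mem_singleton] at e1 e2
  exact h2 (e2.trans e1.symm)

theorem goal_DEG2 (h1 : Goal_STBB) : Goal_DEG2 := by
  classical
  intro n L f G hG hH
  obtain ⟨-, -, s3⟩ := h1 2 n L f G hG
  have hn : 0 < n := by
    have := hG.tn
    omega
  let v0 : Fin n := ⟨0, hn⟩
  refine ⟨ww G, ∑ u ∈ univ.erase v0, ww G {u, v0}, ww_le G, fun y _ => ww_le_wt y, ?_, ?_⟩
  · intro v
    obtain ⟨γ, hγ, he⟩ := hH {v0} (by simp [lev]) {v} (by simp [lev])
    have hv : γ v0 = v := by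
      have h2 : ({γ v0} : Finset (Fin n)) = {v} := by
        rw [← he]
        simp [mv]
      exact singleton_injective h2
    symm
    refine sum_equiv γ (fun u => ?_) (fun u hu => ?_)
    · rw [mem_erase, mem_erase, ← hv]
      simp
    · rw [← hv]
      exact (ww_conj hγ (mem_erase.1 hu).1).symm
  · intro F hF
    have key : ∀ y ∈ F, wt G y ≤ ww G y + if pst G y ≠ 1 then 4 * L else 0 := by
      intro y hy
      have hy2 : #y = 2 := by
        have := hF hy
        simpa [lev] using this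
      obtain ⟨u, v, huv, rfl⟩ := card_eq_two.1 hy2
      split_ifs with hb
      · have h := s3 {u, v} hy2.ge
        rw [hy2] at h
        omega
      · rw [add_zero]
        exact wt_nonbad huv (fun h => hb (bad_pst h))
    unfold Ew
    refine (sum_le_sum key).trans ?_
    rw [sum_add_distrib]
    apply Nat.add_le_add_left
    rw [← sum_filter, sum_const, smul_eq_mul, mul_comm]
    apply Nat.mul_le_mul_left
    unfold bad2
    exact card_le_card (filter_subset_filter _ hF)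

end Pool.Agent.Helper15.FS
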