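import Pool.Agent.Helper4.FS.Edge

/-! Project FS (MP_75608d_al), final step with intervals (helper34, 23228), part (6): many exchanges
in one world, decoded in increasing order of a canonical key. -/

set_option linter.unusedVariables false

namespace Pool.Agent.Helper15.FS

open Finset Equiv Pool.Agent.Helper4.FS

variable {q n : ℕ}

/-- `k` exchanges, the exchange number `0` first -/
def msw (y : World q n) (ξ : ℕ → Fin q × Fin n) (φ : ℕ → Fin n) : ℕ → World q n
  | 0 => y
  | k + 1 => sw (msw y ξ φ k) (ξ k).1 (ξ k).2 (φ k)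

theorem sw_apply_ne {y : World q n} {j : Fin q} {r u : Fin n} {e : Fin q × Fin n}
    (h1 : e ≠ (j, r)) (h2 : e.2 ≠ u) : sw y j r u e.1 e.2 = y e.1 e.2 := by
  obtain ⟨k, p⟩ := e
  by_cases hk : k = j
  · subst hk
    have h3 : p ≠ r := fun h => h1 (by rw [h])
    simp [sw, swap_apply_of_ne_of_ne h3 h2]
  · simp [sw, hk]

theorem sw_apply_right (y : World q n) (j : Fin q) (r u : Fin n) :
    sw y j r u j u = y j r := by
  simp [sw]

/-- agreement of `msw` with `y` -/
theorem msw_apply {y : World q n} {ξ : ℕ → Fin q × Fin n} {φ : ℕ → Fin n} (k : ℕ)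
    {e : Fin q × Fin n} (h1 : ∀ i < k, e ≠ ξ i) (h2 : ∀ i < k, e.2 ≠ φ i) :
    msw y ξ φ k e.1 e.2 = y e.1 e.2 := by
  induction k with
  | zero => rfl
  | succ k ih =>
    show sw (msw y ξ φ k) (ξ k).1 (ξ k).2 (φ k) e.1 e.2 = _
    rw [sw_apply_ne (h1 k (by omega)) (h2 k (by omega))]
    exact ih (fun i hi => h1 i (by omega)) (fun i hi => h2 i (by omega))

/-- **DECODE for a fixed sequence of data**: `ends k y*` computes both ends of the edge `ξ y k`
from any world `y*` which agrees with `y` on `C y` outside `ξ y 0, …, ξ y k`. -/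
theorem decode_seq (w c : ℕ) (Bad : Finset (World q n))
    (C : World q n → Finset (Fin q × Fin n)) (ξ : World q n → ℕ → Fin q × Fin n)
    (ends : ℕ → World q n → (Fin q × Fin n) × Fin n)
    (hC : ∀ y ∈ Bad, (C y).card ≤ c)
    (hξ : ∀ y ∈ Bad, ∀ k < w, ξ y k ∈ C y)
    (hinj : ∀ y ∈ Bad, ∀ k < w, ∀ i < k, ξ y k ≠ ξ y i)
    (hends : ∀ y ∈ Bad, ∀ k < w, ∀ y' : World q n,
      (∀ e ∈ C y, (∀ i ≤ k, e ≠ ξ y i) → y' e.1 e.2 = y e.1 e.2) →
      ends k y' = (ξ y k, y (ξ y k).1 (ξ y k).2)) :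
    Bad.card * (n - c) ^ w ≤ Fintype.card (World q n) := by
  classical
  set U : World q n → Finset (Fin n) := fun y => univ.filter fun u => ∀ e ∈ C y, e.2 ≠ u with hU
  have hUcard : ∀ y ∈ Bad, n - c ≤ (U y).card := by
    intro y hy
    have h1 : (univ.filter fun u : Fin n => ¬ ∀ e ∈ C y, e.2 ≠ u) ⊆ (C y).image Prod.snd := by
      intro u hu
      simp only [mem_filter, mem_univ, true_and, not_forall, not_not] at hu
      obtain ⟨e, he, h⟩ := hu
      exact mem_image.2 ⟨e, he, h⟩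
    have h2 := (card_le_card h1).trans (card_image_le.trans (hC y hy))
    have h3 := card_filter_add_card_filter_not (s := (univ : Finset (Fin n)))
      (fun u : Fin n => ∀ e ∈ C y, e.2 ≠ u)
    simp only [card_univ, Fintype.card_fin] at h3
    have h4 : (U y).card = (univ.filter (fun u : Fin n => ∀ e ∈ C y, e.2 ≠ u)).card := rfl
    omega
  -- extension of a choice to a sequence
  let ex : (Fin w → Fin n) → World q n → ℕ → Fin n := fun φ y i =>
    if h : i < w then φ ⟨i, h⟩ else (ξ y 0).2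
  have hexlt : ∀ (φ : Fin w → Fin n) (y : World q n) (i : ℕ) (h : i < w), ex φ y i = φ ⟨i, h⟩ := by
    intro φ y i h
    simp only [ex, dif_pos h]
  let P : Finset (Σ _ : World q n, Fin w → Fin n) :=
    Bad.sigma fun y => Fintype.piFinset fun _ : Fin w => U y
  have hP : Bad.card * (n - c) ^ w ≤ P.card := by
    rw [card_sigma]
    calc Bad.card * (n - c) ^ w = ∑ y ∈ Bad, (n - c) ^ w := by simp
      _ ≤ ∑ y ∈ Bad, (Fintype.piFinset fun _ : Fin w => U y).card := by
          refine sum_le_sum fun y hy => ?_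
          rw [Fintype.card_piFinset]
          simp only [prod_const, card_univ, Fintype.card_fin]
          exact Nat.pow_le_pow_left (hUcard y hy) w
  refine hP.trans ?_
  rw [← card_univ]
  refine card_le_card_of_injOn
    (fun p : (Σ _ : World q n, Fin w → Fin n) => msw p.1 (ξ p.1) (ex p.2 p.1) w)
    (fun _ _ => by simp) ?_
  rintro ⟨y, φ⟩ h ⟨z, ψ⟩ h' heq
  simp only [P, coe_sigma, Set.mem_sigma_iff, mem_coe, Fintype.mem_piFinset] at h h'
  obtain ⟨hy, hφ⟩ := h
  obtain ⟨hz, hψ⟩ := h'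
  have hag : ∀ (y : World q n) (φ : Fin w → Fin n), y ∈ Bad → (∀ i, φ i ∈ U y) → ∀ k < w,
      ∀ e ∈ C y, (∀ i < k, e ≠ ξ y i) → msw y (ξ y) (ex φ y) k e.1 e.2 = y e.1 e.2 := by
    intro y φ hy hφ k hk e he h1
    refine msw_apply k h1 fun i hi => ?_
    rw [hexlt φ y i (by omega)]
    have := hφ ⟨i, by omega⟩
    simp only [hU, mem_filter, mem_univ, true_and] at this
    exact this e he
  have hag' : ∀ (y : World q n) (φ : Fin w → Fin n), y ∈ Bad → (∀ i, φ i ∈ U y) → ∀ k < w,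
      ∀ e ∈ C y, (∀ i ≤ k, e ≠ ξ y i) →
      msw y (ξ y) (ex φ y) (k + 1) e.1 e.2 = y e.1 e.2 := by
    intro y φ hy hφ k hk e he h1
    refine msw_apply (k + 1) (fun i hi => h1 i (by omega)) fun i hi => ?_
    rw [hexlt φ y i (by omega)]
    have := hφ ⟨i, by omega⟩
    simp only [hU, mem_filter, mem_univ, true_and] at this
    exact this e he
  -- one step of decoding
  have hstep : ∀ k < w, msw y (ξ y) (ex φ y) (k + 1) = msw z (ξ z) (ex ψ z) (k + 1) →
      ex φ y k = ex ψ z k ∧ msw y (ξ y) (ex φ y) k = msw z (ξ z) (ex ψ z) k := by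
    intro k hk heq
    have h1 := hends y hy k hk _ (hag' y φ hy hφ k hk)
    have h2 := hends z hz k hk _ (hag' z ψ hz hψ k hk)
    rw [heq, h2] at h1
    have h3 : ξ z k = ξ y k := (Prod.mk.inj h1).1
    have h4 : z (ξ z k).1 (ξ z k).2 = y (ξ y k).1 (ξ y k).2 := (Prod.mk.inj h1).2
    have h5 : msw y (ξ y) (ex φ y) (k + 1) (ξ y k).1 (ex φ y k) = y (ξ y k).1 (ξ y k).2 := by
      show sw (msw y (ξ y) (ex φ y) k) (ξ y k).1 (ξ y k).2 (ex φ y k) (ξ y k).1 (ex φ y k) = _
      rw [sw_apply_right]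
      exact hag y φ hy hφ k hk _ (hξ y hy k hk) (fun i hi => hinj y hy k hk i hi)
    have h6 : msw z (ξ z) (ex ψ z) (k + 1) (ξ z k).1 (ex ψ z k) = z (ξ z k).1 (ξ z k).2 := by
      show sw (msw z (ξ z) (ex ψ z) k) (ξ z k).1 (ξ z k).2 (ex ψ z k) (ξ z k).1 (ex ψ z k) = _
      rw [sw_apply_right]
      exact hag z ψ hz hψ k hk _ (hξ z hz k hk) (fun i hi => hinj z hz k hk i hi)
    have h7 : ex φ y k = ex ψ z k := by
      have h8 : msw z (ξ z) (ex ψ z) (k + 1) (ξ z k).1 (ex φ y k) =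
          msw z (ξ z) (ex ψ z) (k + 1) (ξ z k).1 (ex ψ z k) := by
        rw [h6, h4, ← h5, heq, h3]
      exact (msw z (ξ z) (ex ψ z) (k + 1) (ξ z k).1).injective h8
    refine ⟨h7, ?_⟩
    have h9 : sw (msw y (ξ y) (ex φ y) (k + 1)) (ξ y k).1 (ξ y k).2 (ex φ y k) =
        msw y (ξ y) (ex φ y) k := sw_sw _ _ _ _
    have h10 : sw (msw z (ξ z) (ex ψ z) (k + 1)) (ξ z k).1 (ξ z k).2 (ex ψ z k) =
        msw z (ξ z) (ex ψ z) k := sw_sw _ _ _ _
    rw [← h9, ← h10, heq, h3, h7]
  have hall : ∀ k ≤ w, msw y (ξ y) (ex φ y) (w - k) = msw z (ξ z) (ex ψ z) (w - k) ∧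
      ∀ i, w - k ≤ i → i < w → ex φ y i = ex ψ z i := by
    intro k
    induction k with
    | zero =>
      intro _
      exact ⟨heq, fun i h1 h2 => by omega⟩
    | succ k ih =>
      intro hk
      obtain ⟨h1, h2⟩ := ih (by omega)
      have h3 : w - k = (w - (k + 1)) + 1 := by omega
      rw [h3] at h1
      obtain ⟨h4, h5⟩ := hstep (w - (k + 1)) (by omega) h1
      refine ⟨h5, fun i hi1 hi2 => ?_⟩
      rcases Nat.eq_or_lt_of_le hi1 with h6 | h6
      · rw [← h6]; exact h4
      · exact h2 i (by omega) hi2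
  obtain ⟨h1, h2⟩ := hall w le_rfl
  rw [Nat.sub_self] at h1 h2
  have h3 : y = z := h1
  subst h3
  have h4 : φ = ψ := by
    funext i
    have := h2 i.1 (Nat.zero_le _) i.2
    rw [hexlt φ y i.1 i.2, hexlt ψ y i.1 i.2] at this
    exact this
  rw [h4]

/-- **DECODE** (part (6) of helper34's final step). For every bad world a set `D y` of `w` data,
a different edge `ξ y δ ∈ C y` for each of them, `#(C y) ≤ c`, and a function `ends δ` which computes
both ends of the edge `ξ y δ` from any world which agrees with `y` on `C y` outside the edges of the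
data `δ' ≥ δ`. -/
theorem decode {Δ : Type*} [Fintype Δ] [LinearOrder Δ] (w c : ℕ) (Bad : Finset (World q n))
    (C : World q n → Finset (Fin q × Fin n)) (D : World q n → Finset Δ)
    (ξ : World q n → Δ → Fin q × Fin n)
    (ends : Δ → World q n → (Fin q × Fin n) × Fin n)
    (hC : ∀ y ∈ Bad, (C y).card ≤ c) (hD : ∀ y ∈ Bad, (D y).card = w)
    (hξ : ∀ y ∈ Bad, ∀ δ ∈ D y, ξ y δ ∈ C y)
    (hinj : ∀ y ∈ Bad, ∀ δ ∈ D y, ∀ δ' ∈ D y, δ ≠ δ' → ξ y δ ≠ ξ y δ')
    (hends : ∀ y ∈ Bad, ∀ δ ∈ D y, ∀ y' : World q n,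
      (∀ e ∈ C y, (∀ δ' ∈ D y, δ ≤ δ' → e ≠ ξ y δ') → y' e.1 e.2 = y e.1 e.2) →
      ends δ y' = (ξ y δ, y (ξ y δ).1 (ξ y δ).2)) :
    Bad.card * (n - c) ^ w ≤ (Fintype.card Δ).choose w * Fintype.card (World q n) := by
  classical
  have h1 : Bad.card = ∑ A ∈ powersetCard w (univ : Finset Δ), (Bad.filter fun y => D y = A).card := by
    refine card_eq_sum_card_fiberwise fun y hy => ?_
    rw [mem_coe, mem_powersetCard]
    exact ⟨subset_univ _, hD y hy⟩
  have h2 : ∀ A ∈ powersetCard w (univ : Finset Δ),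
      (Bad.filter fun y => D y = A).card * (n - c) ^ w ≤ Fintype.card (World q n) := by
    intro A hA
    have hAc : A.card = w := (mem_powersetCard.1 hA).2
    rcases Nat.eq_zero_or_pos w with hw0 | hw0
    · subst hw0
      rw [pow_zero, mul_one, ← card_univ]
      exact card_le_card (subset_univ _)
    haveI : NeZero w := ⟨by omega⟩
    -- the data in decreasing order
    let o := A.orderEmbOfFin hAc
    let δ : ℕ → Δ := fun i => o ⟨w - 1 - i, by omega⟩
    have hδmem : ∀ i, δ i ∈ A := fun i => A.orderEmbOfFin_mem hAc _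
    have hδlt : ∀ i k, i < k → k < w → δ k < δ i := by
      intro i k h1 h2
      exact o.strictMono (by rw [Fin.lt_def]; show w - 1 - k < w - 1 - i; omega)
    have hδsurj : ∀ a ∈ A, ∃ i < w, δ i = a := by
      intro a ha
      have : a ∈ Set.range o := by
        rw [Finset.range_orderEmbOfFin]
        exact ha
      obtain ⟨i, hi⟩ := this
      refine ⟨w - 1 - i.1, by omega, ?_⟩
      rw [← hi]
      show o ⟨w - 1 - (w - 1 - i.1), _⟩ = o i
      congr 1
      exact Fin.ext (by show w - 1 - (w - 1 - i.1) = i.1; omega)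
    refine decode_seq w c (Bad.filter fun y => D y = A) C (fun y k => ξ y (δ k))
      (fun k => ends (δ k)) (fun y hy => hC y (mem_filter.1 hy).1) ?_ ?_ ?_
    · intro y hy k hk
      obtain ⟨h3, h4⟩ := mem_filter.1 hy
      exact hξ y h3 _ (h4 ▸ hδmem k)
    · intro y hy k hk i hi
      obtain ⟨h3, h4⟩ := mem_filter.1 hy
      exact hinj y h3 _ (h4 ▸ hδmem k) _ (h4 ▸ hδmem i) (hδlt i k hi hk).ne
    · intro y hy k hk y' hy'
      obtain ⟨h3, h4⟩ := mem_filter.1 hy
      refine hends y h3 _ (h4 ▸ hδmem k) y' fun e he h5 => hy' e he fun i hi => ?_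
      refine h5 _ (h4 ▸ hδmem i) ?_
      rcases Nat.eq_or_lt_of_le hi with h6 | h6
      · rw [h6]
      · exact (hδlt i k h6 hk).le
  calc Bad.card * (n - c) ^ w
      = ∑ A ∈ powersetCard w (univ : Finset Δ), (Bad.filter fun y => D y = A).card * (n - c) ^ w := by
        rw [h1, sum_mul]
    _ ≤ ∑ A ∈ powersetCard w (univ : Finset Δ), Fintype.card (World q n) := sum_le_sum h2
    _ = (Fintype.card Δ).choose w * Fintype.card (World q n) := by
        rw [sum_const, card_powersetCard, card_univ, smul_eq_mul]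

end Pool.Agent.Helper15.FS
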